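import Pool.Agent.helper1.TW.SpecB

set_option autoImplicit false

open Complex MeasureTheory Set
open scoped ComplexConjugate

namespace Pool.Agent.TW

open Pool.Agent.ZT (VV gC Bn MC cmf cmA cmI lamA muA hm Sqf)

theorem CMB_ico (m : ℕ) (hm : 2 ≤ m) (N : ℕ) (hN : m ≤ N) :
    ∑ x ∈ Finset.Ico m N, 1 / (x : ℝ) ^ 2 ≤ 1 / ((m : ℝ) - 1) - 1 / ((N : ℝ) - 1) := by
  induction N, hN using Nat.le_induction with
  | base => simp
  | succ N hN ih =>
    rw [Finset.sum_Ico_succ_top hN]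
    have hN2 : (2 : ℝ) ≤ N := by exact_mod_cast hm.trans hN
    have h1 : 1 / (N : ℝ) ^ 2 ≤ 1 / ((N : ℝ) - 1) - 1 / (((N + 1 : ℕ) : ℝ) - 1) := by
      have e1 : ((N + 1 : ℕ) : ℝ) - 1 = N := by push_cast; ring
      rw [e1, div_sub_div _ _ (by linarith) (by linarith), div_le_div_iff₀ (by positivity) (by nlinarith)]
      nlinarith
    linarith

theorem CMB_tail (R : Finset ℕ) (y : ℝ) (hy : 0 < y) (hR : ∀ x ∈ R, 2 ≤ x ∧ y ≤ (x : ℝ)) :
    ∑ x ∈ R, 1 / (x : ℝ) ^ 2 ≤ 2 / y := by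
  set m : ℕ := max 2 ⌈y⌉₊ with hmdef
  have hm2 : 2 ≤ m := le_max_left _ _
  have hmy : y ≤ (m : ℝ) := (Nat.le_ceil y).trans (by exact_mod_cast le_max_right 2 ⌈y⌉₊)
  have hm2' : (2 : ℝ) ≤ m := by exact_mod_cast hm2
  have hmx : ∀ x ∈ R, m ≤ x := fun x hx => max_le (hR x hx).1 (Nat.ceil_le.2 (hR x hx).2)
  have hsub : R ⊆ Finset.Ico m (R.sup id + 1 + m) := by
    intro x hx
    rw [Finset.mem_Ico]
    have h1 : x ≤ R.sup id := Finset.le_sup (f := id) hx
    exact ⟨hmx x hx, by omega⟩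
  refine (Finset.sum_le_sum_of_subset_of_nonneg hsub fun _ _ _ => by positivity).trans ?_
  refine (CMB_ico m hm2 _ (by omega)).trans ?_
  have h1 : (0 : ℝ) ≤ 1 / (((R.sup id + 1 + m : ℕ) : ℝ) - 1) := by
    refine one_div_nonneg.2 ?_
    push_cast
    have : (0 : ℝ) ≤ (R.sup id : ℕ) := Nat.cast_nonneg _
    linarith
  have h2 : 1 / ((m : ℝ) - 1) ≤ 2 / y := by
    rw [div_le_div_iff₀ (by linarith) hy]
    linarith
  linarith

theorem CMB_two (s Z : ℕ) (hs : 1 ≤ s) (hZ : 0 < Z) (l : Fin s → ℕ) (hl : ∑ i, l i = Z) (h40 : ∀ i, 40 * l i ≤ Z) :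
    ∃ i j : Fin s, i ≠ j ∧ Z ≤ 2 * s * l i ∧ Z ≤ 2 * s * l j := by
  classical
  have key : ∀ A : Finset (Fin s), 39 * Z ≤ 40 * ∑ i ∈ A, l i → ∃ i ∈ A, Z ≤ 2 * s * l i := by
    intro A hA
    by_contra hcon
    push Not at hcon
    have h1 : ∑ i ∈ A, 2 * s * l i ≤ ∑ _i ∈ A, Z := Finset.sum_le_sum fun i hi => (hcon i hi).le
    rw [← Finset.mul_sum, Finset.sum_const, smul_eq_mul] at h1
    have h2 : A.card ≤ s := by
      have := Finset.card_le_univ A
      rwa [Fintype.card_fin] at this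
    have h3 : A.card * Z ≤ s * Z := Nat.mul_le_mul_right _ h2
    have h4 : s * (39 * Z) ≤ s * (40 * ∑ i ∈ A, l i) := Nat.mul_le_mul_left _ hA
    have h5 : 0 < s * Z := Nat.mul_pos hs hZ
    have e1 : s * (39 * Z) = 39 * (s * Z) := by ring
    have e2 : s * (40 * ∑ i ∈ A, l i) = 20 * (2 * s * ∑ i ∈ A, l i) := by ring
    omega
  obtain ⟨i, -, hi⟩ := key Finset.univ (by rw [hl]; omega)
  obtain ⟨j, hj, hj'⟩ := key (Finset.univ.erase i) (by
    have h1 := Finset.add_sum_erase Finset.univ l (Finset.mem_univ i)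
    rw [hl] at h1
    have h2 := h40 i
    omega)
  exact ⟨i, j, (Finset.ne_of_mem_erase hj).symm, hi, hj'⟩

theorem CMB_phi (n : ℕ) (hn : 1 ≤ n) (L x : ℝ) (hL : 4 ≤ L) (hx : L / 2 ≤ x) :
    L * (L / x) ^ (n + 1) ≤ 2 ^ (n - 1) * L ^ 3 * (1 / x ^ 2) := by
  obtain ⟨m, rfl⟩ : ∃ m, n = m + 1 := ⟨n - 1, by omega⟩
  have hx0 : 0 < x := by linarith
  have h1 : L / x ≤ 2 := by
    rw [div_le_iff₀ hx0]
    linarith
  have h0 : 0 ≤ L / x := by positivity
  have h2 : (L / x) ^ m ≤ 2 ^ m := pow_le_pow_left₀ h0 h1 m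
  have e1 : (L / x) ^ (m + 1 + 1) = (L / x) ^ m * (L ^ 2 * (1 / x ^ 2)) := by
    rw [show m + 1 + 1 = m + 2 from rfl, pow_add, div_pow]
    ring
  rw [e1, Nat.add_sub_cancel]
  have h3 : (L / x) ^ m * (L ^ 2 * (1 / x ^ 2)) ≤ 2 ^ m * (L ^ 2 * (1 / x ^ 2)) :=
    mul_le_mul_of_nonneg_right h2 (by positivity)
  calc L * ((L / x) ^ m * (L ^ 2 * (1 / x ^ 2))) ≤ L * (2 ^ m * (L ^ 2 * (1 / x ^ 2))) :=
        mul_le_mul_of_nonneg_left h3 (by linarith)
    _ = 2 ^ m * L ^ 3 * (1 / x ^ 2) := by ring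

theorem CMB_sum (n : ℕ) (hn : 1 ≤ n) (L y : ℝ) (hL : 4 ≤ L) (hy : 0 < y) (R : Finset ℕ)
    (hR : ∀ x ∈ R, L / 2 ≤ (x : ℝ) ∧ y ≤ (x : ℝ)) :
    ∑ x ∈ R, L * (L / (x : ℝ)) ^ (n + 1) ≤ 2 ^ n * L ^ 3 / y := by
  have h1 : ∑ x ∈ R, L * (L / (x : ℝ)) ^ (n + 1) ≤ ∑ x ∈ R, 2 ^ (n - 1) * L ^ 3 * (1 / (x : ℝ) ^ 2) :=
    Finset.sum_le_sum fun x hx => CMB_phi n hn L x hL (hR x hx).1
  refine h1.trans ?_
  rw [← Finset.mul_sum]
  have h2 := CMB_tail R y hy (fun x hx => ⟨by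
    have h3 := (hR x hx).1
    have h4 : (2 : ℝ) ≤ x := by linarith
    exact_mod_cast h4, (hR x hx).2⟩)
  refine (mul_le_mul_of_nonneg_left h2 (by positivity)).trans (le_of_eq ?_)
  obtain ⟨m, rfl⟩ : ∃ m, n = m + 1 := ⟨n - 1, by omega⟩
  rw [Nat.add_sub_cancel]
  ring

theorem CMB_pair (n : ℕ) (hn : 1 ≤ n) (s Z : ℕ) (L : ℝ) (hL : 4 ≤ L) (hs : 1 ≤ s) (hZ : 0 < Z)
    (T : Finset (Fin s → ℕ)) (i j : Fin s) (hij : i ≠ j)
    (hT : ∀ l ∈ T, (∑ i, l i = Z ∧ ∀ i, L / 2 ≤ (l i : ℝ) ∧ 40 * l i ≤ Z) ∧ Z ≤ 2 * s * l i ∧ Z ≤ 2 * s * l j) :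
    ∑ l ∈ T, ∏ i, (L * (L / (l i : ℝ)) ^ (n + 1)) ≤
      2 ^ ((n + 1) * s) * (s : ℝ) ^ (n + 2) * (L ^ (2 * s) / L * (L / Z) ^ (n + 2)) := by
  classical
  have hL0 : 0 < L := by linarith
  have hZR : (0 : ℝ) < Z := by exact_mod_cast hZ
  have hsR : (0 : ℝ) < s := by exact_mod_cast hs
  set b : ℝ := 2 ^ (n + 1) * L ^ 2 with hbdef
  have hb : 0 < b := by positivity
  -- the sets for the coordinates
  set R : Fin s → Finset ℕ := fun k => if k = i then {0} else
    (Finset.range (Z + 1)).filter fun x => L / 2 ≤ (x : ℝ) ∧ (k = j → Z ≤ 2 * s * x) with hRdef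
  set w : Fin s → ℕ → ℝ := fun k x => if k = i then 1 else L * (L / (x : ℝ)) ^ (n + 1) with hwdef
  have hw0 : ∀ k x, 0 ≤ w k x := by
    intro k x
    rw [hwdef]
    dsimp only
    split_ifs
    · exact zero_le_one
    · positivity
  -- the map
  have hle : ∀ l ∈ T, ∏ k, (L * (L / (l k : ℝ)) ^ (n + 1)) ≤
      L * (2 * s * L / Z) ^ (n + 1) * ∏ k, w k (Function.update l i 0 k) := by
    intro l hl
    obtain ⟨⟨-, h2⟩, h3, -⟩ := hT l hl
    have hli : (0 : ℝ) < l i := by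
      have := (h2 i).1
      linarith
    have h4 : L / (l i : ℝ) ≤ 2 * s * L / Z := by
      rw [div_le_div_iff₀ hli hZR]
      have h5 : (Z : ℝ) ≤ 2 * s * l i := by exact_mod_cast h3
      nlinarith
    have h6 : ∏ k, w k (Function.update l i 0 k) = ∏ k ∈ Finset.univ.erase i, (L * (L / (l k : ℝ)) ^ (n + 1)) := by
      rw [← Finset.mul_prod_erase Finset.univ _ (Finset.mem_univ i)]
      have h7 : w i (Function.update l i 0 i) = 1 := by
        rw [hwdef]
        dsimp only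
        rw [if_pos rfl]
      rw [h7, one_mul]
      refine Finset.prod_congr rfl fun k hk => ?_
      have hki : k ≠ i := Finset.ne_of_mem_erase hk
      rw [hwdef]
      dsimp only
      rw [if_neg hki, Function.update_of_ne hki]
    rw [h6, ← Finset.mul_prod_erase Finset.univ _ (Finset.mem_univ i)]
    refine mul_le_mul_of_nonneg_right ?_ (Finset.prod_nonneg fun k _ => by positivity)
    exact mul_le_mul_of_nonneg_left (pow_le_pow_left₀ (by positivity) h4 _) hL0.le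
  have hinj : Set.InjOn (fun l : Fin s → ℕ => Function.update l i 0) (T : Set (Fin s → ℕ)) := by
    intro l hl l' hl' h
    have h1 := (hT l hl).1.1
    have h2 := (hT l' hl').1.1
    have h3 : ∀ k, k ≠ i → l k = l' k := by
      intro k hk
      have h4 := congrFun h k
      simp only [Function.update_of_ne hk] at h4
      exact h4
    have h5 := Finset.add_sum_erase Finset.univ l (Finset.mem_univ i)
    have h6 := Finset.add_sum_erase Finset.univ l' (Finset.mem_univ i)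
    have h7 : ∑ k ∈ Finset.univ.erase i, l k = ∑ k ∈ Finset.univ.erase i, l' k :=
      Finset.sum_congr rfl fun k hk => h3 k (Finset.ne_of_mem_erase hk)
    funext k
    by_cases hk : k = i
    · rw [hk]
      omega
    · exact h3 k hk
  have hmem : ∀ l ∈ T, Function.update l i 0 ∈ Fintype.piFinset R := by
    intro l hl
    obtain ⟨⟨h1, h2⟩, -, h3⟩ := hT l hl
    rw [Fintype.mem_piFinset]
    intro k
    rw [hRdef]
    dsimp only
    by_cases hk : k = i
    · rw [if_pos hk, hk, Function.update_self]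
      exact Finset.mem_singleton_self _
    · rw [if_neg hk, Function.update_of_ne hk, Finset.mem_filter, Finset.mem_range]
      refine ⟨?_, (h2 k).1, ?_⟩
      · have := (h2 k).2
        omega
      · rintro rfl
        exact h3
  have hsum : ∑ l ∈ T, ∏ k, w k (Function.update l i 0 k) ≤ ∏ k, ∑ x ∈ R k, w k x := by
    rw [Finset.prod_univ_sum]
    have h1 : ∑ l ∈ T, ∏ k, w k (Function.update l i 0 k) =
        ∑ m ∈ T.image (fun l : Fin s → ℕ => Function.update l i 0), ∏ k, w k (m k) := by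
      rw [Finset.sum_image hinj]
    rw [h1]
    refine Finset.sum_le_sum_of_subset_of_nonneg ?_ fun m _ _ => Finset.prod_nonneg fun k _ => hw0 _ _
    intro m hm
    rw [Finset.mem_image] at hm
    obtain ⟨l, hl, rfl⟩ := hm
    exact hmem l hl
  have hB : ∀ k, ∑ x ∈ R k, w k x ≤ b * (if k = i then 1 / b else 1) * (if k = j then s * L / Z else 1) := by
    intro k
    by_cases hk : k = i
    · have hkj : k ≠ j := fun h => hij (hk.symm.trans h)
      rw [if_pos hk, if_neg hkj, mul_one, mul_one_div_cancel hb.ne']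
      rw [hRdef, hwdef]
      dsimp only
      rw [if_pos hk, Finset.sum_singleton, if_pos hk]
    · have h1 : ∑ x ∈ R k, w k x = ∑ x ∈ R k, L * (L / (x : ℝ)) ^ (n + 1) := by
        refine Finset.sum_congr rfl fun x _ => ?_
        rw [hwdef]
        dsimp only
        rw [if_neg hk]
      rw [h1, if_neg hk, mul_one]
      by_cases hkj : k = j
      · rw [if_pos hkj]
        have h2 := CMB_sum n hn L ((Z : ℝ) / (2 * s)) hL (by positivity) (R k) (by
          intro x hx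
          rw [hRdef] at hx
          dsimp only at hx
          rw [if_neg hk, Finset.mem_filter] at hx
          refine ⟨hx.2.1, ?_⟩
          have h3 := hx.2.2 hkj
          have h4 : (Z : ℝ) ≤ 2 * s * x := by exact_mod_cast h3
          rw [div_le_iff₀ (by positivity)]
          linarith)
        refine h2.trans (le_of_eq ?_)
        rw [hbdef]
        field_simp
        ring
      · rw [if_neg hkj, mul_one]
        have h2 := CMB_sum n hn L (L / 2) hL (by positivity) (R k) (by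
          intro x hx
          rw [hRdef] at hx
          dsimp only at hx
          rw [if_neg hk, Finset.mem_filter] at hx
          exact ⟨hx.2.1, hx.2.1⟩)
        refine h2.trans (le_of_eq ?_)
        rw [hbdef]
        field_simp
        ring
  have hprod : ∏ k, ∑ x ∈ R k, w k x ≤ b ^ s * (1 / b) * (s * L / Z) := by
    refine (Finset.prod_le_prod (fun k _ => Finset.sum_nonneg fun x _ => hw0 k x) fun k _ => hB k).trans
      (le_of_eq ?_)
    rw [Finset.prod_mul_distrib, Finset.prod_mul_distrib, Finset.prod_const, Finset.card_univ, Fintype.card_fin,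
      Finset.prod_ite_eq', Finset.prod_ite_eq', if_pos (Finset.mem_univ _), if_pos (Finset.mem_univ _)]
  calc ∑ l ∈ T, ∏ k, (L * (L / (l k : ℝ)) ^ (n + 1)) ≤
      ∑ l ∈ T, L * (2 * s * L / Z) ^ (n + 1) * ∏ k, w k (Function.update l i 0 k) := Finset.sum_le_sum hle
    _ = L * (2 * s * L / Z) ^ (n + 1) * ∑ l ∈ T, ∏ k, w k (Function.update l i 0 k) := by rw [Finset.mul_sum]
    _ ≤ L * (2 * s * L / Z) ^ (n + 1) * (b ^ s * (1 / b) * (s * L / Z)) :=
        mul_le_mul_of_nonneg_left (hsum.trans hprod) (by positivity)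
    _ = 2 ^ ((n + 1) * s) * (s : ℝ) ^ (n + 2) * (L ^ (2 * s) / L * (L / Z) ^ (n + 2)) := by
        rw [hbdef, mul_pow, ← pow_mul, ← pow_mul]
        have e1 : (2 * (s : ℝ) * L / Z) ^ (n + 1) = 2 ^ (n + 1) * (s : ℝ) ^ (n + 1) * (L / Z) ^ (n + 1) := by
          rw [mul_assoc, mul_div_assoc, mul_pow, mul_div_assoc, mul_pow]
          ring
        rw [e1]
        have e2 : ∀ a : ℝ, a ^ (n + 2) = a ^ (n + 1) * a := fun a => pow_succ a (n + 1)
        rw [e2, e2]
        field_simp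

theorem CMB : CMB_stmt := by
  classical
  intro n hn
  refine ⟨2 ^ (2 * n + 5), one_le_pow₀ (by norm_num), ?_⟩
  intro s Z L T hL hs hT
  have hL0 : 0 < L := by linarith
  rcases T.eq_empty_or_nonempty with rfl | ⟨l₀, hl₀⟩
  · rw [Finset.sum_empty]
    positivity
  have hZ : 0 < Z := by
    obtain ⟨h1, h2⟩ := hT l₀ hl₀
    have i₀ : Fin s := ⟨0, hs⟩
    have h3 := h2 i₀
    have h4 : (0 : ℝ) < l₀ i₀ := by linarith [h3.1]
    have h5 : 0 < l₀ i₀ := by exact_mod_cast h4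
    omega
  have hZR : (0 : ℝ) < Z := by exact_mod_cast hZ
  set F : (Fin s → ℕ) → ℝ := fun l => ∏ i, (L * (L / (l i : ℝ)) ^ (n + 1)) with hF
  have hF0 : ∀ l, 0 ≤ F l := fun l => Finset.prod_nonneg fun i _ => by positivity
  set G : Fin s × Fin s → (Fin s → ℕ) → Prop := fun p l => p.1 ≠ p.2 ∧ Z ≤ 2 * s * l p.1 ∧ Z ≤ 2 * s * l p.2 with hG
  set E : ℝ := 2 ^ ((n + 1) * s) * (s : ℝ) ^ (n + 2) * (L ^ (2 * s) / L * (L / Z) ^ (n + 2)) with hE
  have hE0 : 0 ≤ E := by positivity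
  have h1 : ∑ l ∈ T, F l ≤ ∑ l ∈ T, ∑ p : Fin s × Fin s, if G p l then F l else 0 := by
    refine Finset.sum_le_sum fun l hl => ?_
    obtain ⟨i, j, hij, hi, hj⟩ := CMB_two s Z hs hZ l (hT l hl).1 (fun i => ((hT l hl).2 i).2)
    have h2 : (if G (i, j) l then F l else 0) = F l := if_pos ⟨hij, hi, hj⟩
    have h3 : (if G (i, j) l then F l else 0) ≤ ∑ p : Fin s × Fin s, if G p l then F l else 0 :=
      Finset.single_le_sum (f := fun p : Fin s × Fin s => if G p l then F l else 0) (fun p _ => by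
        split_ifs
        · exact hF0 l
        · exact le_rfl) (Finset.mem_univ (i, j))
    exact h2.symm.le.trans h3
  have h2 : ∀ p : Fin s × Fin s, ∑ l ∈ T, (if G p l then F l else 0) ≤ E := by
    intro p
    rw [← Finset.sum_filter]
    by_cases hp : p.1 = p.2
    · have h3 : T.filter (fun l => G p l) = ∅ := by
        rw [Finset.filter_eq_empty_iff]
        intro l _ h
        exact h.1 hp
      rw [h3, Finset.sum_empty]
      exact hE0
    · refine CMB_pair n hn s Z L hL hs hZ (T.filter fun l => G p l) p.1 p.2 hp ?_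
      intro l hl
      rw [Finset.mem_filter] at hl
      exact ⟨hT l hl.1, hl.2.2⟩
  have h3 : ∑ l ∈ T, F l ≤ (s : ℝ) ^ 2 * E := by
    refine h1.trans ?_
    rw [Finset.sum_comm]
    refine (Finset.sum_le_sum fun p _ => h2 p).trans (le_of_eq ?_)
    rw [Finset.sum_const, Finset.card_univ, Fintype.card_prod, Fintype.card_fin, nsmul_eq_mul]
    push_cast
    ring
  refine h3.trans ?_
  have h4 : (s : ℝ) ≤ 2 ^ s := by exact_mod_cast (Nat.lt_two_pow_self (n := s)).le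
  have h5 : (s : ℝ) ^ (n + 4) ≤ (2 ^ s) ^ (n + 4) := pow_le_pow_left₀ (Nat.cast_nonneg s) h4 _
  have e1 : (s : ℝ) ^ 2 * E = 2 ^ ((n + 1) * s) * (s : ℝ) ^ (n + 4) * (L ^ (2 * s) / L * (L / Z) ^ (n + 2)) := by
    rw [hE]
    ring
  have e2 : ((2 : ℝ) ^ (2 * n + 5)) ^ s * L ^ (2 * s) / L * (L / Z) ^ (n + 2) =
      2 ^ ((n + 1) * s) * (2 ^ s) ^ (n + 4) * (L ^ (2 * s) / L * (L / Z) ^ (n + 2)) := by
    have e3 : ((2 : ℝ) ^ (2 * n + 5)) ^ s = 2 ^ ((n + 1) * s) * (2 ^ s) ^ (n + 4) := by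
      rw [← pow_mul, ← pow_mul, ← pow_add]
      congr 1
      ring
    rw [e3]
    ring
  rw [e1, e2]
  exact mul_le_mul_of_nonneg_right (mul_le_mul_of_nonneg_left h5 (by positivity)) (by positivity)

end Pool.Agent.TW
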