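import Pool.Agent.helper70.TW.SpecE

set_option autoImplicit false

namespace Pool.Agent.TW

open Complex

open Pool.Agent.ZT (cmf cmA cmI lamA muA hm Sqf)

theorem ETP (hSPR : SPR_stmt) (hLPS : LPS_stmt) (hFAC : FAC_stmt) : ETP_stmt := by
  intro n β p hn hp hβ j
  obtain ⟨hmul, -, hprod, hcmI, hcmA⟩ := hLPS.1 p hp
  have hP : lps p (lamA (fun p => sat n (β p)) (fun _ => 1)) *
      ∏ j : Fin n, (1 - PowerSeries.C (sat n (β p) j) * PowerSeries.X) = 1 := by
    unfold lamA
    rw [hprod, ← Finset.prod_mul_distrib]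
    refine Finset.prod_eq_one fun i _ => ?_
    have h := hcmA (fun q => (1 : ℂ) * sat n (β q) i)
    simp only [one_mul] at h ⊢
    exact h
  have hQ : lps p (muA (fun _ => cen n) (fun _ => 1)) =
      ∏ j : Fin n, (1 - PowerSeries.C (sat n 0 j) * PowerSeries.X) := by
    unfold muA
    rw [hprod]
    refine Finset.prod_congr rfl fun i _ => ?_
    have h := hcmI (fun _ => (1 : ℂ) * cen n i)
    simp only [one_mul] at h ⊢
    exact h
  rw [hSPR n hn (β p) hβ] at hP
  rw [hSPR n hn 0 (by simp)] at hQ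
  have h1 := hFAC.1 (I * ((β p).im : ℂ)) 1
  have h2 := hFAC.1 ((β p).re : ℂ) (-1)
  have h3 : PowerSeries.C ((1 : ℂ)) = 1 := map_one _
  have h4 : PowerSeries.C ((-1 : ℂ)) = -1 := by rw [map_neg, map_one]
  rw [h3] at h1
  rw [h4] at h2
  have hQ' : lps p (muA (fun _ => cen n) (fun _ => 1)) =
      (1 - PowerSeries.X ^ 2) * (1 + PowerSeries.X ^ 2) * (1 - PowerSeries.X ^ (n - 4)) := by
    rw [hQ]
    simp
  have hfin : lps p (lamA (fun p => sat n (β p)) (fun _ => 1) * muA (fun _ => cen n) (fun _ => 1)) =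
      PowerSeries.mk (facs (I * ((β p).im : ℂ)) 1) * PowerSeries.mk (facs ((β p).re : ℂ) (-1)) := by
    rw [hmul, hQ']
    have e1 : (1 : PowerSeries ℂ) - PowerSeries.X ^ 2 = PowerSeries.mk (facs (I * ((β p).im : ℂ)) 1) *
        (1 - PowerSeries.C (I * ((β p).im : ℂ)) * PowerSeries.X - PowerSeries.X ^ 2) := by
      rw [one_mul] at h1
      exact h1.symm
    have e2 : (1 : PowerSeries ℂ) + PowerSeries.X ^ 2 = PowerSeries.mk (facs ((β p).re : ℂ) (-1)) *
        (1 - PowerSeries.C ((β p).re : ℂ) * PowerSeries.X + PowerSeries.X ^ 2) := by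
      have h5 : (1 : PowerSeries ℂ) - PowerSeries.C ((β p).re : ℂ) * PowerSeries.X + PowerSeries.X ^ 2 =
          1 - PowerSeries.C ((β p).re : ℂ) * PowerSeries.X - -1 * PowerSeries.X ^ 2 := by ring
      rw [h5, h2]
      ring
    rw [e1, e2]
    linear_combination (PowerSeries.mk (facs (I * ((β p).im : ℂ)) 1) *
      PowerSeries.mk (facs ((β p).re : ℂ) (-1))) * hP
  have hc : etn n β (p ^ j) = PowerSeries.coeff j
      (lps p (lamA (fun p => sat n (β p)) (fun _ => 1) * muA (fun _ => cen n) (fun _ => 1))) := by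
    unfold lps
    rw [PowerSeries.coeff_mk]
    rfl
  rw [hc, hfin, PowerSeries.coeff_mul]
  refine Finset.sum_congr rfl fun x _ => ?_
  rw [PowerSeries.coeff_mk, PowerSeries.coeff_mk]

end Pool.Agent.TW
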